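import Pool.Agent.Helper76.CDET.Deriv
import Pool.Agent.SDD.PfInst
import Pool.Agent.Helper69.SDD.R2

/-!
Sums of Pfaffians for tests (MP_b6562f_lc): the coefficient of a product of distinct variables
in a multiple of a member of a tower, and the two series.
-/

set_option autoImplicit false

namespace Pool.PTest

open Finset MvPolynomial Pool.Agent.Helper76.CDET
open scoped ENNReal BigOperators

section deriv
variable {K : Type} [Field K] {σ Y E : Type} {ι : ℕ → Type} [Fintype E]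

theorem itd_mem_Wl (p : ∀ k, ι k → MvPolynomial E K) (hp : Pool.SDD.Tower p) (dl : ℕ)
    (hdl : 1 ≤ dl) (A : E → MvPolynomial (σ ⊕ Y) K) (hA : ∀ e, (A e).totalDegree ≤ dl) (nu : ℕ)
    (f : MvPolynomial (σ ⊕ Y) K) (l : List Y) (k k' : ℕ) (hk : k' = k + l.length)
    (hf : f ∈ Pool.SDD.Wl (fun j => aeval A (p k' j)) nu) :
    itd l f ∈ Pool.SDD.Wl (fun j => aeval A (p k j)) (nu + l.length * (dl - 1)) := by
  induction l generalizing k with
  | nil =>
    have h0 : k' = k := by simpa using hk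
    subst h0
    simpa [itd] using hf
  | cons b l ih =>
    have h1 := ih (k + 1) (by rw [hk, List.length_cons]; omega)
    have h2 := Pool.SDD.pderiv_mem_Wl p hp dl A hdl hA k _ (Sum.inr b) h1
    have h3 : itd (b :: l) f = pderiv (Sum.inr b) (itd l f) := rfl
    rw [h3, List.length_cons, Nat.succ_mul, ← Nat.add_assoc]
    exact h2

omit [Fintype E] in
theorem eps0_mem_Wl {κ : Type} (p : κ → MvPolynomial E K) (A : E → MvPolynomial (σ ⊕ Y) K)
    (l : ℕ) (f : MvPolynomial (σ ⊕ Y) K) (hf : f ∈ Pool.SDD.Wl (fun j => aeval A (p j)) l) :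
    eps0 K σ Y f ∈ Pool.SDD.Wl (fun j => aeval (fun e => eps0 K σ Y (A e)) (p j)) l := by
  induction hf using Submodule.span_induction with
  | mem x hx =>
    obtain ⟨μ, i, hμ, rfl⟩ := hx
    rw [map_mul]
    have h1 : eps0 K σ Y (aeval A (p i)) = aeval (fun e => eps0 K σ Y (A e)) (p i) := by
      have h2 : (eps0 K σ Y).comp (aeval A) = aeval (fun e => eps0 K σ Y (A e)) := by
        apply MvPolynomial.algHom_ext
        intro e
        rw [AlgHom.comp_apply, aeval_X, aeval_X]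
      exact DFunLike.congr_fun h2 (p i)
    have h3 : (eps0 K σ Y (monomial μ (1:K))).totalDegree ≤ l := by
      refine (Pool.SDD.totalDegree_aeval_monomial _ ?_ μ).trans hμ
      rintro (y | b)
      · exact (totalDegree_X (R := K) y).le
      · simp
    simp only
    rw [h1]
    have h4 := Pool.SDD.mul_mem_Wl_r (fun j => aeval (fun e => eps0 K σ Y (A e)) (p j)) _ h3
      (Pool.SDD.mem_Wl_zero (fun j => aeval (fun e => eps0 K σ Y (A e)) (p j)) i)
    rwa [add_zero] at h4
  | zero => rw [map_zero]; exact Submodule.zero_mem _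
  | add x y _ _ hx hy => rw [map_add]; exact Submodule.add_mem _ hx hy
  | smul c x _ hx => rw [map_smul]; exact Submodule.smul_mem _ _ hx

theorem Dc_mem_Wl {D : ℕ} (y : Fin D → Y) (p : ∀ k, ι k → MvPolynomial E K)
    (hp : Pool.SDD.Tower p) (dl : ℕ) (hdl : 1 ≤ dl) (A : E → MvPolynomial (σ ⊕ Y) K)
    (hA : ∀ e, (A e).totalDegree ≤ dl) (nu k : ℕ) (f : MvPolynomial (σ ⊕ Y) K)
    (hf : f ∈ Pool.SDD.Wl (fun j => aeval A (p (k + D) j)) nu) :
    Dc y f ∈ Pool.SDD.Wl (fun j => aeval (fun e => eps0 K σ Y (A e)) (p k j))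
      (nu + D * (dl - 1)) := by
  apply eps0_mem_Wl (p k) A
  have h := itd_mem_Wl p hp dl hdl A hA nu f (List.ofFn y) k (k + D)
    (by rw [List.length_ofFn]) hf
  rwa [List.length_ofFn] at h

end deriv

section series
variable {K : Type} [Field K] {σ C : Type}

/-- the space without extra variables -/
theorem finrank_Wl_empty_le [Finite σ] [Finite C] (G : C → MvPolynomial σ K) (l : ℕ) :
    Module.finrank K (Wl Empty G l) ≤ Module.finrank K (Pool.SDD.Wl G l) := by
  classical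
  have h1 : Wl Empty G l ≤ Submodule.map
      (rename (Sum.inl : σ → σ ⊕ Empty) : MvPolynomial σ K →ₐ[K] _).toLinearMap
      (Pool.SDD.Wl G l) := by
    unfold Wl
    rw [Submodule.span_le]
    rintro f ⟨μ, c, hμ, rfl⟩
    have h2 : μ = Finsupp.mapDomain Sum.inl (μ.comapDomain Sum.inl Sum.inl_injective.injOn) := by
      ext x
      rcases x with s | e
      · rw [Finsupp.mapDomain_apply Sum.inl_injective, Finsupp.comapDomain_apply]
      · exact e.elim
    refine ⟨monomial (μ.comapDomain Sum.inl Sum.inl_injective.injOn) 1 * G c,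
      Submodule.subset_span ⟨_, c, ?_, rfl⟩, ?_⟩
    · have h3 := Finsupp.degree_mapDomain (Sum.inl : σ → σ ⊕ Empty)
        (μ.comapDomain Sum.inl Sum.inl_injective.injOn)
      rw [← h2] at h3
      omega
    · rw [AlgHom.toLinearMap_apply, map_mul, rename_monomial, ← h2]
  exact (Submodule.finrank_mono h1).trans (Submodule.finrank_map_le _ _)

/-- lower bound for the series of the shifted spaces by lowest terms -/
theorem low_series' [Fintype σ] [Finite C] (G : C → MvPolynomial σ K)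
    (M : C → σ →₀ ℕ) (B : ℕ) (hB : ∀ c, (M c).degree = B)
    (h1 : ∀ c T, coeff T (G c) ≠ 0 → M c ≤ T) (h2 : ∀ c, coeff (M c) (G c) ≠ 0)
    (Q : ℝ≥0∞) (hQ : Q < 1) [DecidablePred fun u : σ → ℕ => ∃ c, ∀ s, M c s ≤ u s] :
    (1 - Q) ^ Fintype.card σ *
      ∑' u : σ → ℕ, (if ∃ c, ∀ s, M c s ≤ u s then Q ^ (∑ s, u s) else 0) ≤
    Q ^ B * ((1 - Q) ^ (Fintype.card σ + 1) *
      ∑' l : ℕ, Q ^ l * (Module.finrank K (Pool.SDD.Wl G l) : ℝ≥0∞)) := by
  refine (low_series Empty G M B hB h1 h2 Q hQ).trans ?_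
  rw [Fintype.card_empty, add_zero]
  gcongr with l
  exact finrank_Wl_empty_le G l

/-- upper bound for the shifted spaces -/
theorem up_series' [Finite σ] {T s : ℕ} {κ : Type} [Finite κ] [Finite C]
    (G : C → MvPolynomial σ K) (g : Fin T → κ → MvPolynomial σ K)
    (hG : ∀ c, G c ∈ ⨆ i, Pool.SDD.Wl (g i) s) (Q : ℝ≥0∞) :
    Q ^ s * ∑' l : ℕ, Q ^ l * (Module.finrank K (Pool.SDD.Wl G l) : ℝ≥0∞) ≤
      ∑ i, ∑' l : ℕ, Q ^ l * (Module.finrank K (Pool.SDD.Wl (g i) l) : ℝ≥0∞) := by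
  classical
  have h1 : ∀ l, Pool.SDD.Wl G l ≤ ⨆ i, Pool.SDD.Wl (g i) (l + s) := by
    intro l
    unfold Pool.SDD.Wl
    rw [Submodule.span_le]
    rintro f ⟨μ, c, hμ, rfl⟩
    have h2 : LinearMap.mulLeft K (monomial μ (1:K)) (G c) ∈
        Submodule.map (LinearMap.mulLeft K (monomial μ (1:K))) (⨆ i, Pool.SDD.Wl (g i) s) :=
      Submodule.mem_map_of_mem (hG c)
    rw [Submodule.map_iSup] at h2
    have h3 : (⨆ i, Submodule.map (LinearMap.mulLeft K (monomial μ (1:K)))
        (Pool.SDD.Wl (g i) s)) ≤ ⨆ i, Pool.SDD.Wl (g i) (l + s) := by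
      apply iSup_mono
      intro i
      rintro _ ⟨x, hx, rfl⟩
      exact Pool.SDD.monomial_mul_mem_Wl hμ hx
    exact h3 h2
  have h2 : ∀ l, (Module.finrank K (Pool.SDD.Wl G l) : ℝ≥0∞) ≤
      ∑ i, (Module.finrank K (Pool.SDD.Wl (g i) (l + s)) : ℝ≥0∞) := by
    intro l
    have h3 : Module.finrank K (Pool.SDD.Wl G l) ≤
        ∑ i, Module.finrank K (Pool.SDD.Wl (g i) (l + s)) :=
      (Submodule.finrank_mono (h1 l)).trans (Pool.SDD.finrank_iSup_le _)
    exact_mod_cast h3
  calc Q ^ s * ∑' l : ℕ, Q ^ l * (Module.finrank K (Pool.SDD.Wl G l) : ℝ≥0∞)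
      ≤ Q ^ s * ∑' l : ℕ, Q ^ l *
          ∑ i, (Module.finrank K (Pool.SDD.Wl (g i) (l + s)) : ℝ≥0∞) := by
        gcongr with l
        exact h2 l
    _ = ∑ i, (Q ^ s * ∑' l : ℕ, Q ^ l *
          (Module.finrank K (Pool.SDD.Wl (g i) (l + s)) : ℝ≥0∞)) := by
        simp_rw [Finset.mul_sum]
        rw [Summable.tsum_finsetSum (fun i _ => ENNReal.summable), Finset.mul_sum]
    _ ≤ _ := Finset.sum_le_sum fun i _ =>
        Pool.SDD.series_shift (fun l => Module.finrank K (Pool.SDD.Wl (g i) l)) s Q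

end series

end Pool.PTest
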