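import Pool.Agent.Helper76.CDET.Digits
import Pool.Agent.Helper91.PT.Base
import Pool.Agent.PF.Matrix

/-!
Sums of Pfaffians for tests (MP_b6562f_lc): the monomial machine, for any representation of the
test polynomial.
-/

set_option autoImplicit false
set_option linter.unusedSectionVars false

namespace Pool.PTest

open Finset hiding sup ext
open MvPolynomial hiding ext
open Pool.Agent.Helper76.CDET
open scoped ENNReal BigOperators

section
variable {F : Type} [Field F] {V Ya Xt Yt C : Type} [DecidableEq V]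

/-- the derivatives of the test polynomial -/
noncomputable def Gc (κ : V → Option (Option (Xt ⊕ Yt))) {D : ℕ} (yc : C → Fin D → Yt)
    (f : MvPolynomial (V ⊕ Ya) F) (c : C) : MvPolynomial Xt (Lf F (V ⊕ Ya)) :=
  Dc (yc c) (Psi F (ext Ya κ) f)

/-- the density of the multiples of the monomials `M c`, over the series of the derivatives -/
theorem amachine [Fintype V] [Fintype Xt] [Finite C]
    (f : MvPolynomial (V ⊕ Ya) F) (hml : ∀ μ ∈ f.support, ∀ e, μ (Sum.inl e) ≤ 1)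
    (P : Finset V → Prop) (hP : ∀ S, restr S f ≠ 0 ↔ P S)
    (κ : V → Option (Option (Xt ⊕ Yt))) {D : ℕ} (yc : C → Fin D → Yt)
    (hyc : ∀ c, Function.Injective (yc c)) (M : C → Xt → ℕ) (B : ℕ) (hB : ∀ c, ∑ x, M c x = B)
    (h1 : ∀ c (S : Finset V), P S → (∀ e ∈ S, κ e ≠ none) →
      (∀ e ∈ S, ∀ z, κ e = some (some (Sum.inr z)) → z ∈ Set.range (yc c)) →
      (∀ x, M c x ≤ cnt κ S (Sum.inl x)) ∧ ∀ b, 1 ≤ cnt κ S (Sum.inr (yc c b)))
    (h2 : ∀ c, ∃ S : Finset V, P S ∧ (∀ e ∈ S, κ e ≠ none) ∧ Hits κ (M c) (yc c) S)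
    (h3 : ∀ c (S S' : Finset V), P S → P S' → (∀ e ∈ S, κ e ≠ none) → (∀ e ∈ S', κ e ≠ none) →
      Hits κ (M c) (yc c) S → Hits κ (M c) (yc c) S' →
      (∀ e, κ e = some none → (e ∈ S ↔ e ∈ S')) → S = S')
    (Q : ℝ≥0∞) (hQ : Q < 1)
    [DecidablePred fun u : Xt → ℕ => ∃ c, ∀ x, M c x ≤ u x] :
    (1 - Q) ^ Fintype.card Xt *
      ∑' u : Xt → ℕ, (if ∃ c, ∀ x, M c x ≤ u x then Q ^ (∑ x, u x) else 0) ≤
    Q ^ B * ((1 - Q) ^ (Fintype.card Xt + 1) * ∑' l : ℕ, Q ^ l *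
      (Module.finrank (Lf F (V ⊕ Ya)) (Pool.SDD.Wl (Gc κ yc f) l) : ℝ≥0∞)) := by
  classical
  set κ' := ext Ya κ with hκ'
  set G : C → MvPolynomial Xt (Lf F (V ⊕ Ya)) := Gc κ yc f with hG
  have hcoeff : ∀ c T, coeff T (G c) = coeff (Finsupp.mapDomain Sum.inl T +
      ∑ b, Finsupp.single (Sum.inr (yc c b)) 1) (Psi F κ' f) := fun c T =>
    coeff_Dc (yc c) (hyc c) _ T
  have hdead : ∀ μ : (V ⊕ Ya) →₀ ℕ, (∀ v, κ' v = none → μ v = 0) ↔ ∀ e ∈ sup μ, κ e ≠ none := by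
    intro μ
    constructor
    · intro h e he hκ
      exact (by simpa [sup] using he : μ (Sum.inl e) ≠ 0) (h (Sum.inl e) hκ)
    · intro h v hv
      rcases v with e | y
      · by_contra h4
        exact h e (by simpa [sup] using h4) hv
      · exact absurd hv (by simp [hκ', ext])
  have hMdeg : ∀ c, (Finsupp.equivFunOnFinite.symm (M c) : Xt →₀ ℕ).degree = B := by
    intro c
    rw [Finsupp.degree_eq_sum]
    exact hB c
  have hlow : ∀ c T, coeff T (G c) ≠ 0 → (Finsupp.equivFunOnFinite.symm (M c) : Xt →₀ ℕ) ≤ T := by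
    intro c T hT
    rw [hcoeff] at hT
    obtain ⟨μ, hμ, hμd, hμp⟩ := exists_of_coeff_Psi_ne_zero κ' f _ hT
    have hS := prop_sup f P hP μ hμ
    have hT' : Finsupp.mapDomain Sum.inl T + ∑ b, Finsupp.single (Sum.inr (yc c b)) 1 =
        tgt (fun x => T x) (yc c) := by
      rw [tgt]
      congr 2
      ext x
      rfl
    have hcn : ∀ v, cnt κ (sup μ) v = tgt (fun x => T x) (yc c) v := by
      intro v
      rw [← push_ext_cnt κ μ (hml μ hμ) v, ← hκ', hμp, hT']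
    have hh := hits_of_tgt κ _ (yc c) (hyc c) (sup μ) hcn
    have h4 := h1 c (sup μ) hS ((hdead μ).1 hμd) (by
      intro e he z hz
      by_contra hzr
      exact cnt_eq_zero κ (hh.2.2 z hzr) e he hz)
    intro x
    have h5 := h4.1 x
    rw [hh.1] at h5
    exact h5
  have hself : ∀ c, coeff (Finsupp.equivFunOnFinite.symm (M c) : Xt →₀ ℕ) (G c) ≠ 0 := by
    intro c
    rw [hcoeff]
    obtain ⟨S, hS, hSd, hSh⟩ := h2 c
    obtain ⟨μ, hμ, hμS⟩ := exists_sup f P hP S hS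
    have hPμ := prop_sup f P hP μ hμ
    have hmono : ∀ v, cnt κ (sup μ) v ≤ cnt κ S v := fun v => cnt_mono κ hμS v
    have hdμ : ∀ e ∈ sup μ, κ e ≠ none := fun e he => hSd e (hμS he)
    have h4 := h1 c (sup μ) hPμ hdμ (by
      intro e he z hz
      by_contra hzr
      exact cnt_eq_zero κ (hSh.2.2 z hzr) e (hμS he) hz)
    have hh : Hits κ (M c) (yc c) (sup μ) := by
      refine ⟨fun x => le_antisymm ((hmono _).trans (hSh.1 x).le) (h4.1 x), fun b =>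
        le_antisymm ((hmono _).trans (hSh.2.1 b).le) (h4.2 b), fun z hz => ?_⟩
      have := (hmono (Sum.inr z)).trans (hSh.2.2 z hz).le
      omega
    have htgt : push κ' μ = tgt (M c) (yc c) := by
      ext v
      rw [hκ', push_ext_cnt κ μ (hml μ hμ), tgt_of_hits κ _ _ (hyc c) _ hh]
    have h5 := coeff_Psi_ne_zero κ' f μ hμ ((hdead μ).2 hdμ) (by
      intro μ' hμ' hd' hp' hr'
      have hPμ' := prop_sup f P hP μ' hμ'
      have hc' : ∀ v, cnt κ (sup μ') v = tgt (M c) (yc c) v := by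
        intro v
        rw [← push_ext_cnt κ μ' (hml μ' hμ') v, ← hκ', hp', htgt]
      have hSS : sup μ' = sup μ := by
        refine h3 c _ _ hPμ' hPμ ((hdead μ').1 hd') hdμ (hits_of_tgt κ _ _ (hyc c) _ hc') hh ?_
        intro e he
        have h6 := DFunLike.congr_fun hr' (Sum.inl e)
        rw [rest, rest, Finsupp.filter_apply_pos (fun v => κ' v = some none) _
          (by simpa [hκ', ext] using he), Finsupp.filter_apply_pos (fun v => κ' v = some none) _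
          (by simpa [hκ', ext] using he)] at h6
        simp [sup, h6]
      ext v
      rcases v with e | y
      · have h6 := hml μ hμ e
        have h7 := hml μ' hμ' e
        have h8 : e ∈ sup μ' ↔ e ∈ sup μ := by rw [hSS]
        simp only [sup, Finset.mem_filter, Finset.mem_univ, true_and] at h8
        omega
      · have h6 := DFunLike.congr_fun hr' (Sum.inr y)
        rw [rest, rest, Finsupp.filter_apply_pos (fun v => κ' v = some none) _
            (by simp [hκ', ext]), Finsupp.filter_apply_pos (fun v => κ' v = some none) _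
            (by simp [hκ', ext])] at h6
        exact h6)
    rw [htgt, tgt] at h5
    exact h5
  have hmain := low_series' G (fun c => (Finsupp.equivFunOnFinite.symm (M c) : Xt →₀ ℕ)) B hMdeg
    hlow hself Q hQ
  refine le_trans (le_of_eq ?_) hmain
  congr 1
  refine tsum_congr fun u => ?_
  by_cases h : ∃ c, ∀ x, M c x ≤ u x
  · rw [if_pos h, if_pos (by exact h)]
  · rw [if_neg h, if_neg (by exact h)]

/-- the right hand side, for sums of products of a polynomial of degree at most `nu` and a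
Pfaffian of order at most `2 m` with entries of degree at most `d`, in the variables `V` -/
theorem pf_bound [Fintype V] [Fintype Xt] [Finite C] {T m d nu D : ℕ} (hd : 1 ≤ d) (hD : D < m)
    (f : MvPolynomial (V ⊕ Ya) F) (κ : V → Option (Option (Xt ⊕ Yt))) (yc : C → Fin D → Yt)
    (s : Fin T → ℕ) (hs : ∀ i, s i ≤ m)
    (P : Fin T → MvPolynomial (V ⊕ Ya) F)
    (hP : ∀ i, ∀ μ ∈ (P i).support, ∑ e, μ (Sum.inl e) ≤ nu)
    (A : ∀ i, Matrix (Fin (2 * s i)) (Fin (2 * s i)) (MvPolynomial (V ⊕ Ya) F))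
    (hA : ∀ i p q, ∀ μ ∈ (A i p q).support, ∑ e, μ (Sum.inl e) ≤ d)
    (hf : f = ∑ i, P i * Pool.PF.pf (s i) (A i)) (Q : ℝ≥0∞) (hQ : Q < 1) :
    Q ^ (nu + D * (d - 1)) * ((1 - Q) ^ (Fintype.card Xt + 1) * ∑' l : ℕ, Q ^ l *
      (Module.finrank (Lf F (V ⊕ Ya)) (Pool.SDD.Wl (Gc κ yc f) l) : ℝ≥0∞)) ≤
    T * ∑ j ∈ Finset.range (2 * D + 1),
      (Nat.choose (2 * m - 2 * D - 1 + j) j : ℝ≥0∞) * (1 - Q ^ d) ^ j := by
  classical
  set κ' := ext Ya κ with hκ'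
  obtain ⟨k, hk⟩ : ∃ k, m = k + D := ⟨m - D, by omega⟩
  have hk1 : 1 ≤ k := by omega
  -- the Pfaffians
  have hmat : ∀ i, ∃ A' : Pool.PF.Cell (2 * m) → MvPolynomial (Xt ⊕ Yt) (Lf F (V ⊕ Ya)),
      (∀ e, (A' e).totalDegree ≤ d) ∧
      Psi F κ' (Pool.PF.pf (s i) (A i)) =
        aeval A' (Pool.PF.pfam (Lf F (V ⊕ Ya)) (2 * m) m (RelEmbedding.refl _)) := by
    intro i
    obtain ⟨B, hB1, hB2⟩ := Pool.PF.exists_aeval (hs i) d ((A i).map (Psi F κ')) (by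
      intro p q
      rw [Matrix.map_apply]
      exact totalDegree_Psi_le κ' _ d fun μ hμ => (degree_push_le κ μ).trans (hA i p q μ hμ))
    refine ⟨B, hB1, ?_⟩
    rw [Pool.PF.map_pf, hB2]
    rfl
  choose A' hA' hpf using hmat
  have hG : ∀ c, Gc κ yc f c ∈ ⨆ i, Pool.SDD.Wl
      (fun j => aeval (fun e => eps0 (Lf F (V ⊕ Ya)) Xt Yt (A' i e))
        (Pool.PF.pfam (Lf F (V ⊕ Ya)) (2 * m) k j)) (nu + D * (d - 1)) := by
    intro c
    unfold Gc
    rw [hf, map_sum, Dc_sum]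
    refine Submodule.sum_mem _ fun i _ => Submodule.mem_iSup_of_mem i ?_
    refine Dc_mem_Wl (yc c) (Pool.PF.pfam (Lf F (V ⊕ Ya)) (2 * m)) Pool.PF.pfam_tower d hd
      (A' i) (hA' i) nu k _ ?_
    rw [map_mul, ← hκ', hpf i, ← hk]
    have h0 := Pool.SDD.mem_Wl_zero
      (fun j => aeval (A' i) (Pool.PF.pfam (Lf F (V ⊕ Ya)) (2 * m) m j)) (RelEmbedding.refl _)
    have h1 := Pool.SDD.mul_mem_Wl_r _ (Psi F κ' (P i)) (a := nu)
      (totalDegree_Psi_le κ' _ nu fun μ hμ => (degree_push_le κ μ).trans (hP i μ hμ)) h0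
    rwa [Nat.add_zero] at h1
  have h1 := up_series' (Gc κ yc f) _ hG Q
  calc Q ^ (nu + D * (d - 1)) * ((1 - Q) ^ (Fintype.card Xt + 1) * ∑' l : ℕ, Q ^ l *
        (Module.finrank (Lf F (V ⊕ Ya)) (Pool.SDD.Wl (Gc κ yc f) l) : ℝ≥0∞))
      = (1 - Q) ^ (Fintype.card Xt + 1) * (Q ^ (nu + D * (d - 1)) * ∑' l : ℕ, Q ^ l *
        (Module.finrank (Lf F (V ⊕ Ya)) (Pool.SDD.Wl (Gc κ yc f) l) : ℝ≥0∞)) := by ring
    _ ≤ (1 - Q) ^ (Fintype.card Xt + 1) * ∑ i : Fin T, ∑' l : ℕ, Q ^ l *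
        (Module.finrank (Lf F (V ⊕ Ya)) (Pool.SDD.Wl
          (fun j => aeval (fun e => eps0 (Lf F (V ⊕ Ya)) Xt Yt (A' i e))
            (Pool.PF.pfam (Lf F (V ⊕ Ya)) (2 * m) k j)) l) : ℝ≥0∞) := by gcongr
    _ = ∑ i : Fin T, (1 - Q) ^ (Fintype.card Xt + 1) * ∑' l : ℕ, Q ^ l *
        (Module.finrank (Lf F (V ⊕ Ya)) (Pool.SDD.Wl
          (fun j => aeval (fun e => eps0 (Lf F (V ⊕ Ya)) Xt Yt (A' i e))
            (Pool.PF.pfam (Lf F (V ⊕ Ya)) (2 * m) k j)) l) : ℝ≥0∞) := by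
        rw [Finset.mul_sum]
    _ ≤ ∑ _i : Fin T, ∑ j ∈ Finset.range (2 * D + 1),
        (Nat.choose (2 * m - 2 * D - 1 + j) j : ℝ≥0∞) * (1 - Q ^ d) ^ j := by
        refine Finset.sum_le_sum fun i _ => ?_
        have h2 := Pool.SDD.pf_hU hk1 (show k ≤ m by omega) hd
          (fun e => eps0 (Lf F (V ⊕ Ya)) Xt Yt (A' i e))
          (fun e => (eps0_totalDegree _).trans (hA' i e)) Q hQ
        rw [show 2 * (m - k) + 1 = 2 * D + 1 by omega,
          show 2 * k - 1 = 2 * m - 2 * D - 1 by omega] at h2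
        exact h2
    _ = _ := by rw [Finset.sum_const, Finset.card_univ, Fintype.card_fin, nsmul_eq_mul]

/-- THE MACHINE for sums of products of a polynomial of degree at most `nu` and a Pfaffian of
order at most `2 m` with entries of degree at most `d`. -/
theorem pmachine [Fintype V] [Fintype Xt] [Finite C]
    (f : MvPolynomial (V ⊕ Ya) F) (hml : ∀ μ ∈ f.support, ∀ e, μ (Sum.inl e) ≤ 1)
    (P : Finset V → Prop) (hP : ∀ S, restr S f ≠ 0 ↔ P S)
    (κ : V → Option (Option (Xt ⊕ Yt))) {D : ℕ} (yc : C → Fin D → Yt)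
    (hyc : ∀ c, Function.Injective (yc c)) (M : C → Xt → ℕ) (B : ℕ) (hB : ∀ c, ∑ x, M c x = B)
    (h1 : ∀ c (S : Finset V), P S → (∀ e ∈ S, κ e ≠ none) →
      (∀ e ∈ S, ∀ z, κ e = some (some (Sum.inr z)) → z ∈ Set.range (yc c)) →
      (∀ x, M c x ≤ cnt κ S (Sum.inl x)) ∧ ∀ b, 1 ≤ cnt κ S (Sum.inr (yc c b)))
    (h2 : ∀ c, ∃ S : Finset V, P S ∧ (∀ e ∈ S, κ e ≠ none) ∧ Hits κ (M c) (yc c) S)
    (h3 : ∀ c (S S' : Finset V), P S → P S' → (∀ e ∈ S, κ e ≠ none) → (∀ e ∈ S', κ e ≠ none) →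
      Hits κ (M c) (yc c) S → Hits κ (M c) (yc c) S' →
      (∀ e, κ e = some none → (e ∈ S ↔ e ∈ S')) → S = S')
    {T m d nu : ℕ} (hd : 1 ≤ d) (hD : D < m) (s : Fin T → ℕ) (hs : ∀ i, s i ≤ m)
    (R : Fin T → MvPolynomial (V ⊕ Ya) F)
    (hR : ∀ i, ∀ μ ∈ (R i).support, ∑ e, μ (Sum.inl e) ≤ nu)
    (A : ∀ i, Matrix (Fin (2 * s i)) (Fin (2 * s i)) (MvPolynomial (V ⊕ Ya) F))
    (hA : ∀ i p q, ∀ μ ∈ (A i p q).support, ∑ e, μ (Sum.inl e) ≤ d)
    (hf : f = ∑ i, R i * Pool.PF.pf (s i) (A i)) (Q : ℝ≥0∞) (hQ : Q < 1)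
    [DecidablePred fun u : Xt → ℕ => ∃ c, ∀ x, M c x ≤ u x] :
    Q ^ (nu + D * (d - 1)) * ((1 - Q) ^ Fintype.card Xt *
      ∑' u : Xt → ℕ, (if ∃ c, ∀ x, M c x ≤ u x then Q ^ (∑ x, u x) else 0)) ≤
    Q ^ B * (T * ∑ j ∈ Finset.range (2 * D + 1),
      (Nat.choose (2 * m - 2 * D - 1 + j) j : ℝ≥0∞) * (1 - Q ^ d) ^ j) := by
  set W := (1 - Q) ^ (Fintype.card Xt + 1) * ∑' l : ℕ, Q ^ l *
      (Module.finrank (Lf F (V ⊕ Ya)) (Pool.SDD.Wl (Gc κ yc f) l) : ℝ≥0∞) with hW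
  calc Q ^ (nu + D * (d - 1)) * ((1 - Q) ^ Fintype.card Xt *
      ∑' u : Xt → ℕ, (if ∃ c, ∀ x, M c x ≤ u x then Q ^ (∑ x, u x) else 0))
      ≤ Q ^ (nu + D * (d - 1)) * (Q ^ B * W) :=
        mul_le_mul' le_rfl (amachine f hml P hP κ yc hyc M B hB h1 h2 h3 Q hQ)
    _ = Q ^ B * (Q ^ (nu + D * (d - 1)) * W) := by ring
    _ ≤ _ := mul_le_mul' le_rfl (pf_bound hd hD f κ yc s hs R hR A hA hf Q hQ)

end

section
variable {F : Type} [Field F] {V Ya α : Type} [DecidableEq V]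

/-- THE MACHINE FOR WORDS. Choices are families of words `c h : Fin l → α`, `h : Fin D × Bool`. -/
theorem pmachine_words [Fintype V] [Fintype α] [DecidableEq α]
    (f : MvPolynomial (V ⊕ Ya) F) (hml : ∀ μ ∈ f.support, ∀ e, μ (Sum.inl e) ≤ 1)
    (P : Finset V → Prop) (hP : ∀ S, restr S f ≠ 0 ↔ P S) {D l B : ℕ}
    (X : ((Fin D × Bool) × Fin l) × (α × Fin B) → V)
    (Y : Fin D × (Fin l → α) × (Fin l → α) → V) (Z : Finset V)
    (hinj : Function.Injective (Sum.elim X Y)) (hX : ∀ x, X x ∉ Z) (hY : ∀ y, Y y ∉ Z)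
    (h1 : ∀ (c : Fin D × Bool → Fin l → α) (S : Finset V), P S →
      (∀ e ∈ S, e ∈ Z ∨ (∃ x, e = X x) ∨ ∃ b, e = Y (b, c (b, false), c (b, true))) →
      (∀ h i j, X ((h, i), (c h i, j)) ∈ S) ∧ ∀ b, Y (b, c (b, false), c (b, true)) ∈ S)
    (h2 : ∀ c : Fin D × Bool → Fin l → α, ∃ S : Finset V, P S ∧
      ∀ e ∈ S, e ∈ Z ∨ (∃ h i j, e = X ((h, i), (c h i, j))) ∨
        ∃ b, e = Y (b, c (b, false), c (b, true)))
    {T m d nu : ℕ} (hd : 1 ≤ d) (hD : D < m) (s : Fin T → ℕ) (hs : ∀ i, s i ≤ m)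
    (R : Fin T → MvPolynomial (V ⊕ Ya) F)
    (hR : ∀ i, ∀ μ ∈ (R i).support, ∑ e, μ (Sum.inl e) ≤ nu)
    (A : ∀ i, Matrix (Fin (2 * s i)) (Fin (2 * s i)) (MvPolynomial (V ⊕ Ya) F))
    (hA : ∀ i p q, ∀ μ ∈ (A i p q).support, ∑ e, μ (Sum.inl e) ≤ d)
    (hf : f = ∑ i, R i * Pool.PF.pf (s i) (A i)) (Q : ℝ≥0∞) (hQ : Q < 1) :
    Q ^ (nu + D * (d - 1)) * (1 - (1 - Q ^ B) ^ Fintype.card α) ^ (2 * D * l) ≤
    Q ^ (2 * D * l * B) * (T * ∑ j ∈ Finset.range (2 * D + 1),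
      (Nat.choose (2 * m - 2 * D - 1 + j) j : ℝ≥0∞) * (1 - Q ^ d) ^ j) := by
  classical
  set κ := kap X Y Z with hκ
  let yc : (Fin D × Bool → Fin l → α) → Fin D → Fin D × (Fin l → α) × (Fin l → α) :=
    fun c b => (b, c (b, false), c (b, true))
  have hyc : ∀ c, Function.Injective (yc c) := by
    intro c b b' h
    exact (Prod.ext_iff.1 h).1
  let M : (Fin D × Bool → Fin l → α) → ((Fin D × Bool) × Fin l) × (α × Fin B) → ℕ :=
    fun c x => if x.2.1 = c x.1.1 x.1.2 then 1 else 0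
  have hB : ∀ c, ∑ x, M c x = 2 * D * l * B := by
    intro c
    rw [Fintype.sum_prod_type]
    simp only [M]
    have h3 : ∀ p : (Fin D × Bool) × Fin l,
        ∑ y : α × Fin B, (if y.1 = c p.1 p.2 then 1 else 0) = B := by
      intro p
      rw [Fintype.sum_prod_type]
      have h4 : ∀ x : α, ∑ _y : Fin B, (if x = c p.1 p.2 then 1 else 0) =
          if x = c p.1 p.2 then B else 0 := by
        intro x
        split_ifs <;> simp
      rw [Finset.sum_congr rfl fun x _ => h4 x, Finset.sum_ite_eq' Finset.univ (c p.1 p.2),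
        if_pos (Finset.mem_univ _)]
    rw [Finset.sum_congr rfl fun p _ => h3 p, Finset.sum_const, Finset.card_univ, smul_eq_mul]
    simp only [Fintype.card_prod, Fintype.card_fin, Fintype.card_bool]
    ring
  have hmain := pmachine f hml P hP κ yc hyc M _ hB
    (by
      intro c S hS hd hy
      have h4 := h1 c S hS (by
        intro e he
        rcases (kap_ne_none X Y Z hinj e).1 (hd e he) with ⟨x, rfl⟩ | ⟨y, rfl⟩ | hz
        · exact Or.inr (Or.inl ⟨x, rfl⟩)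
        · obtain ⟨b, hb⟩ := hy _ he y (kap_Y X Y Z hinj y)
          exact Or.inr (Or.inr ⟨b, by rw [← hb]⟩)
        · exact Or.inl hz)
      constructor
      · rintro ⟨⟨h, i⟩, ⟨a, j⟩⟩
        simp only [M]
        split_ifs with h5
        · subst h5
          rw [hκ, cnt_X X Y Z hinj, if_pos (h4.1 h i j)]
        · exact Nat.zero_le _
      · intro b
        rw [hκ, cnt_Y X Y Z hinj, if_pos (h4.2 b)])
    (by
      intro c
      obtain ⟨S, hS, hS2⟩ := h2 c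
      have h4 := h1 c S hS (by
        intro e he
        rcases hS2 e he with hz | ⟨h, i, j, rfl⟩ | hb
        · exact Or.inl hz
        · exact Or.inr (Or.inl ⟨_, rfl⟩)
        · exact Or.inr (Or.inr hb))
      refine ⟨S, hS, ?_, ?_, ?_, ?_⟩
      · intro e he
        rw [hκ, kap_ne_none X Y Z hinj]
        rcases hS2 e he with hz | ⟨h, i, j, rfl⟩ | ⟨b, rfl⟩
        · exact Or.inr (Or.inr hz)
        · exact Or.inl ⟨_, rfl⟩
        · exact Or.inr (Or.inl ⟨_, rfl⟩)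
      · rintro ⟨⟨h, i⟩, ⟨a, j⟩⟩
        rw [hκ, cnt_X X Y Z hinj]
        simp only [M]
        by_cases h5 : a = c h i
        · subst h5
          rw [if_pos (h4.1 h i j), if_pos rfl]
        · rw [if_neg h5, if_neg]
          intro h6
          rcases hS2 _ h6 with hz | ⟨h', i', j', h7⟩ | ⟨b, h7⟩
          · exact hX _ hz
          · have h8 := @hinj (Sum.inl _) (Sum.inl _) h7
            simp only [Sum.inl.injEq, Prod.mk.injEq] at h8
            obtain ⟨⟨rfl, rfl⟩, rfl, -⟩ := h8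
            exact h5 rfl
          · have h8 := @hinj (Sum.inl _) (Sum.inr _) h7
            simp at h8
      · intro b
        rw [hκ, cnt_Y X Y Z hinj, if_pos (h4.2 b)]
      · intro y h5
        rw [hκ, cnt_Y X Y Z hinj, if_neg]
        intro h6
        rcases hS2 _ h6 with hz | ⟨h', i', j', h7⟩ | ⟨b, h7⟩
        · exact hY _ hz
        · have h8 := @hinj (Sum.inr _) (Sum.inl _) h7
          simp at h8
        · have h8 := @hinj (Sum.inr _) (Sum.inr _) h7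
          simp only [Sum.inr.injEq] at h8
          exact h5 ⟨b, h8.symm⟩)
    (by
      intro c S S' _ _ hd hd' hh hh' hfree
      refine uniq_of_injective κ ?_ S S' hd hd' ?_ hfree
      · intro e e' v h h'
        rcases v with x | y
        · rw [hκ, kap_eq_inl X Y Z hinj] at h h'
          rw [h, h']
        · rw [hκ, kap_eq_inr X Y Z hinj] at h h'
          rw [h, h']
      · intro v
        rw [tgt_of_hits κ _ _ (hyc c) S hh, tgt_of_hits κ _ _ (hyc c) S' hh'])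
    hd hD s hs R hR A hA hf Q hQ
  refine le_trans (le_of_eq ?_) hmain
  congr 1
  have h5 := series_all (P := (Fin D × Bool) × Fin l) (α := α) (S := Fin B) Q hQ
  rw [Fintype.card_fin] at h5
  have h6 : Fintype.card ((Fin D × Bool) × Fin l) = 2 * D * l := by
    simp only [Fintype.card_prod, Fintype.card_fin, Fintype.card_bool]
    ring
  rw [h6] at h5
  rw [← h5]
  congr 1
  refine tsum_congr fun u => ?_
  have h7 : (∃ c : Fin D × Bool → Fin l → α, ∀ x, M c x ≤ u x) ↔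
      ∀ p, ∃ e, ∀ s, 1 ≤ u (p, (e, s)) := by
    constructor
    · rintro ⟨c, hc⟩ ⟨h, i⟩
      refine ⟨c h i, fun s => ?_⟩
      have h8 := hc ((h, i), (c h i, s))
      simpa [M] using h8
    · intro h8
      choose c hc using h8
      refine ⟨fun h i => c (h, i), ?_⟩
      rintro ⟨⟨h, i⟩, ⟨a, j⟩⟩
      simp only [M]
      split_ifs with h9
      · subst h9
        exact hc (h, i) j
      · exact Nat.zero_le _
  by_cases h8 : ∀ p, ∃ e, ∀ s, 1 ≤ u (p, (e, s))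
  · rw [if_pos h8, if_pos (h7.2 h8)]
  · rw [if_neg h8, if_neg (fun h9 => h8 (h7.1 h9))]

end

section real

theorem ennreal_to_real' (A B N E S T D c d : ℕ) (q : ℝ) (hq0 : 0 < q) (hq1 : q < 1)
    (key : ENNReal.ofReal q ^ S * (1 - (1 - ENNReal.ofReal q ^ B) ^ A) ^ N ≤
      ENNReal.ofReal q ^ E * (T * ∑ j ∈ Finset.range D, (Nat.choose (c + j) j : ℝ≥0∞) *
        (1 - ENNReal.ofReal q ^ d) ^ j)) :
    q ^ S * (1 - (1 - q ^ B) ^ A) ^ N ≤ q ^ E * (T *
      ∑ j ∈ Finset.range D, (Nat.choose (c + j) j : ℝ) * (1 - q ^ d) ^ j) := by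
  have hpow : ∀ i : ℕ, (1 : ℝ≥0∞) - ENNReal.ofReal q ^ i = ENNReal.ofReal (1 - q ^ i) := by
    intro i
    rw [ENNReal.ofReal_sub _ (pow_nonneg hq0.le _), ENNReal.ofReal_pow hq0.le, ENNReal.ofReal_one]
  have h1q : ∀ i : ℕ, 0 ≤ 1 - q ^ i := fun i => by
    have := pow_le_one₀ (n := i) hq0.le hq1.le
    linarith
  have h1qN' : (1 - q ^ B) ^ A ≤ 1 :=
    pow_le_one₀ (h1q B) (by linarith [pow_pos hq0 B])
  have e1 : ((1 : ℝ≥0∞) - (1 - ENNReal.ofReal q ^ B) ^ A) ^ N =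
      ENNReal.ofReal ((1 - (1 - q ^ B) ^ A) ^ N) := by
    rw [hpow, ENNReal.ofReal_pow (by linarith), ENNReal.ofReal_sub _ (pow_nonneg (h1q B) _),
      ENNReal.ofReal_pow (h1q B), ENNReal.ofReal_one]
  have e2 : ∑ j ∈ Finset.range D, (Nat.choose (c + j) j : ℝ≥0∞) *
      (1 - ENNReal.ofReal q ^ d) ^ j = ENNReal.ofReal (∑ j ∈ Finset.range D,
        (Nat.choose (c + j) j : ℝ) * (1 - q ^ d) ^ j) := by
    rw [ENNReal.ofReal_sum_of_nonneg (fun j _ => mul_nonneg (by positivity)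
      (pow_nonneg (h1q d) _))]
    apply Finset.sum_congr rfl
    intro j _
    rw [hpow, ENNReal.ofReal_mul (by positivity), ENNReal.ofReal_pow (h1q d),
      ENNReal.ofReal_natCast]
  have hS : 0 ≤ ∑ j ∈ Finset.range D, (Nat.choose (c + j) j : ℝ) * (1 - q ^ d) ^ j :=
    Finset.sum_nonneg (fun j _ => mul_nonneg (by positivity) (pow_nonneg (h1q d) _))
  rw [e1, e2, ← ENNReal.ofReal_pow hq0.le, ← ENNReal.ofReal_pow hq0.le, ← ENNReal.ofReal_natCast,
    ← ENNReal.ofReal_mul (by positivity), ← ENNReal.ofReal_mul (by positivity),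
    ← ENNReal.ofReal_mul (by positivity)] at key
  exact (ENNReal.ofReal_le_ofReal_iff
    (mul_nonneg (by positivity) (mul_nonneg (by positivity) hS))).mp key

end real

section
variable {F : Type} [Field F] {V Ya α : Type} [DecidableEq V]

/-- the form for words, real numbers -/
theorem pmachine_words_real [Fintype V] [Fintype α] [DecidableEq α]
    (f : MvPolynomial (V ⊕ Ya) F) (hml : ∀ μ ∈ f.support, ∀ e, μ (Sum.inl e) ≤ 1)
    (P : Finset V → Prop) (hP : ∀ S, restr S f ≠ 0 ↔ P S) {D l B : ℕ}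
    (X : ((Fin D × Bool) × Fin l) × (α × Fin B) → V)
    (Y : Fin D × (Fin l → α) × (Fin l → α) → V) (Z : Finset V)
    (hinj : Function.Injective (Sum.elim X Y)) (hX : ∀ x, X x ∉ Z) (hY : ∀ y, Y y ∉ Z)
    (h1 : ∀ (c : Fin D × Bool → Fin l → α) (S : Finset V), P S →
      (∀ e ∈ S, e ∈ Z ∨ (∃ x, e = X x) ∨ ∃ b, e = Y (b, c (b, false), c (b, true))) →
      (∀ h i j, X ((h, i), (c h i, j)) ∈ S) ∧ ∀ b, Y (b, c (b, false), c (b, true)) ∈ S)
    (h2 : ∀ c : Fin D × Bool → Fin l → α, ∃ S : Finset V, P S ∧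
      ∀ e ∈ S, e ∈ Z ∨ (∃ h i j, e = X ((h, i), (c h i, j))) ∨
        ∃ b, e = Y (b, c (b, false), c (b, true)))
    {T m d nu : ℕ} (hd : 1 ≤ d) (hD : D < m) (s : Fin T → ℕ) (hs : ∀ i, s i ≤ m)
    (R : Fin T → MvPolynomial (V ⊕ Ya) F)
    (hR : ∀ i, ∀ μ ∈ (R i).support, ∑ e, μ (Sum.inl e) ≤ nu)
    (A : ∀ i, Matrix (Fin (2 * s i)) (Fin (2 * s i)) (MvPolynomial (V ⊕ Ya) F))
    (hA : ∀ i p q, ∀ μ ∈ (A i p q).support, ∑ e, μ (Sum.inl e) ≤ d)
    (hf : f = ∑ i, R i * Pool.PF.pf (s i) (A i)) (q : ℝ) (hq0 : 0 < q) (hq1 : q < 1) :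
    q ^ (nu + D * (d - 1)) * (1 - (1 - q ^ B) ^ Fintype.card α) ^ (2 * D * l) ≤
    q ^ (2 * D * l * B) * (T * ∑ j ∈ Finset.range (2 * D + 1),
      (Nat.choose (2 * m - 2 * D - 1 + j) j : ℝ) * (1 - q ^ d) ^ j) :=
  ennreal_to_real' _ _ _ _ _ _ _ _ _ q hq0 hq1
    (pmachine_words f hml P hP X Y Z hinj hX hY h1 h2 hd hD s hs R hR A hA hf _
      (by
        rw [← ENNReal.ofReal_one]
        exact (ENNReal.ofReal_lt_ofReal_iff (by norm_num)).mpr hq1))

/-- the form for bits -/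
theorem pmachine_bits_real [Fintype V]
    (f : MvPolynomial (V ⊕ Ya) F) (hml : ∀ μ ∈ f.support, ∀ e, μ (Sum.inl e) ≤ 1)
    (P : Finset V → Prop) (hP : ∀ S, restr S f ≠ 0 ↔ P S) {D l B : ℕ}
    (X : ((Fin D × Bool) × Fin l) × (Bool × Fin B) → V)
    (Y : Fin D × (Fin l → Bool) × (Fin l → Bool) → V) (Z : Finset V)
    (hinj : Function.Injective (Sum.elim X Y)) (hX : ∀ x, X x ∉ Z) (hY : ∀ y, Y y ∉ Z)
    (h1 : ∀ (c : Fin D × Bool → Fin l → Bool) (S : Finset V), P S →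
      (∀ e ∈ S, e ∈ Z ∨ (∃ x, e = X x) ∨ ∃ b, e = Y (b, c (b, false), c (b, true))) →
      (∀ h i j, X ((h, i), (c h i, j)) ∈ S) ∧ ∀ b, Y (b, c (b, false), c (b, true)) ∈ S)
    (h2 : ∀ c : Fin D × Bool → Fin l → Bool, ∃ S : Finset V, P S ∧
      ∀ e ∈ S, e ∈ Z ∨ (∃ h i j, e = X ((h, i), (c h i, j))) ∨
        ∃ b, e = Y (b, c (b, false), c (b, true)))
    {T m d nu : ℕ} (hd : 1 ≤ d) (hD : D < m) (s : Fin T → ℕ) (hs : ∀ i, s i ≤ m)
    (R : Fin T → MvPolynomial (V ⊕ Ya) F)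
    (hR : ∀ i, ∀ μ ∈ (R i).support, ∑ e, μ (Sum.inl e) ≤ nu)
    (A : ∀ i, Matrix (Fin (2 * s i)) (Fin (2 * s i)) (MvPolynomial (V ⊕ Ya) F))
    (hA : ∀ i p q, ∀ μ ∈ (A i p q).support, ∑ e, μ (Sum.inl e) ≤ d)
    (hf : f = ∑ i, R i * Pool.PF.pf (s i) (A i)) (q : ℝ) (hq0 : 0 < q) (hq1 : q < 1) :
    q ^ (nu + D * (d - 1)) * (2 - q ^ B) ^ (2 * D * l) ≤ T *
      ∑ j ∈ Finset.range (2 * D + 1),
        (Nat.choose (2 * m - 2 * D - 1 + j) j : ℝ) * (1 - q ^ d) ^ j := by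
  have h := pmachine_words_real f hml P hP X Y Z hinj hX hY h1 h2 hd hD s hs R hR A hA hf q
    hq0 hq1
  rw [Fintype.card_bool] at h
  have h3 : q ^ (nu + D * (d - 1)) * (1 - (1 - q ^ B) ^ 2) ^ (2 * D * l) =
      q ^ (2 * D * l * B) * (q ^ (nu + D * (d - 1)) * (2 - q ^ B) ^ (2 * D * l)) := by
    have h4 : (1 - (1 - q ^ B) ^ 2) ^ (2 * D * l) =
        q ^ (2 * D * l * B) * (2 - q ^ B) ^ (2 * D * l) := by
      rw [mul_comm (2 * D * l) B, pow_mul q B, ← mul_pow]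
      congr 1
      ring
    rw [h4]
    ring
  rw [h3] at h
  exact le_of_mul_le_mul_left h (pow_pos hq0 _)

end

end Pool.PTest
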